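import Mathlib
import Pool.Agent.H892R2.Tomo.Had

/-!
# Polytopes are not stably determined by their central sectional areas

Two isotropic centrally symmetric polytopes with few facets whose relative central sectional areas
are superpolynomially close, but whose Hausdorff distance is large.
-/

set_option autoImplicit false

open Set Module MeasureTheory
open scoped RealInnerProductSpace ENNReal Pointwise

namespace Pool.Agent.Results.MP_9f0ab0_gt.CutCubes

/-- Euclidean space `ℝ^d`. -/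
abbrev E (d : ℕ) : Type := EuclideanSpace ℝ (Fin d)

/-- `P` is a polytope in `ℝ^d`: a compact intersection of finitely many closed half-spaces, with
nonempty interior. -/
def IsPolytope {d : ℕ} (P : Set (E d)) : Prop :=
  (∃ (m : ℕ) (a : Fin m → E d) (b : Fin m → ℝ),
    P = {x | ∀ k, inner ℝ (a k) x ≤ b k}) ∧ IsCompact P ∧ (interior P).Nonempty

/-- The affine dimension of `F`. -/
noncomputable def dim {d : ℕ} (F : Set (E d)) : ℕ := Module.finrank ℝ (vectorSpan ℝ F)

/-- `F` is a facet of `P`: the nonempty intersection of `P` with a supporting hyperplane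
`{x | ⟪u, x⟫ = h}` of `P`, of dimension `d - 1`. -/
def IsFacet {d : ℕ} (P F : Set (E d)) : Prop :=
  ∃ (u : E d) (h : ℝ), u ≠ 0 ∧ (∀ x ∈ P, inner ℝ u x ≤ h) ∧
    F = {x | x ∈ P ∧ inner ℝ u x = h} ∧ F.Nonempty ∧ dim F + 1 = d

/-- `P` has at most `m` facets. -/
def AtMostFacets {d : ℕ} (P : Set (E d)) (m : ℕ) : Prop :=
  {F | IsFacet P F}.encard ≤ (m : ℕ∞)

/-- `P` is isotropic: the uniform probability distribution on `P` has mean `0` and identity
covariance matrix. -/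
def IsIsotropic {d : ℕ} (P : Set (E d)) : Prop :=
  (⨍ x in P, x) = 0 ∧ ∀ i j, (⨍ x in P, x i * x j) = if i = j then 1 else 0

/-- Lebesgue measure, as a real number, of a set in a finite-dimensional Euclidean space. -/
noncomputable def vol {F : Type} [NormedAddCommGroup F] [InnerProductSpace ℝ F]
    [FiniteDimensional ℝ F] [MeasurableSpace F] [BorelSpace F] (S : Set F) : ℝ :=
  (volume S).toReal

/-- The hyperplane `θ^⊥` through the origin. -/
noncomputable def perp {d : ℕ} (θ : E d) : Submodule ℝ (E d) := (ℝ ∙ θ)ᗮ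

/-- The section `P ∩ θ^⊥`, as a subset of the Euclidean space `θ^⊥`. -/
def centralSection {d : ℕ} (P : Set (E d)) (θ : E d) : Set (perp θ) := {y | (y : E d) ∈ P}

/-- `A_P(θ)`: the `(d-1)`-dimensional volume of `P ∩ θ^⊥` divided by the volume of `P`. -/
noncomputable def relSection {d : ℕ} (P : Set (E d)) (θ : E d) : ℝ :=
  vol (centralSection P θ) / vol P

open Pool.Agent.H892R2.Tomo

theorem polytope_KK {d : ℕ} {ι : Type*} [Fintype ι] {s : ℝ} (hs : 0 < s) (W : ι → Fin d → ℝ)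
    (hW : ∀ a j, |W a j| = 1) : IsPolytope (KK s W) := by
  refine ⟨⟨Fintype.card ((Fin d ⊕ ι) × Bool),
    fun k => nv W ((Fintype.equivFin _).symm k), fun k => nb s ι d ((Fintype.equivFin _).symm k),
    ?_⟩, KK_compact hs.le W, KK_interior hs W hW⟩
  rw [KK_eq]
  ext x
  simp only [mem_ofPred_eq]
  constructor
  · intro h k
    exact h _
  · intro h k
    have := h (Fintype.equivFin _ k)
    rwa [Equiv.symm_apply_apply] at this

theorem facets_KK {d : ℕ} {ι : Type*} [Fintype ι] (hd : 0 < d) (s : ℝ) (W : ι → Fin d → ℝ)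
    (hW : ∀ a j, |W a j| = 1) :
    {F | IsFacet (KK s W) F}.encard ≤ (((d + Fintype.card ι) * 2 : ℕ) : ℕ∞) := by
  classical
  unfold IsFacet dim
  have hsub : {F | IsFacet (KK s W) F} ⊆ ((Finset.univ.image
      (fun k : (Fin d ⊕ ι) × Bool => {x | x ∈ KK s W ∧ ⟪nv W k, x⟫ = nb s ι d k}) :
      Finset (Set (EuclideanSpace ℝ (Fin d)))) : Set (Set (EuclideanSpace ℝ (Fin d)))) := by
    rintro F ⟨u, h, hu, hs', hF, hne, hdim⟩
    obtain ⟨k, hk⟩ := facet_eq (nv W) (nb s ι d) (nv_ne_zero hd W (fun a j h => by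
      have := hW a j; rw [h] at this; simp at this)) (KK s W) F (KK_eq s W) u h hu hs' hF hne hdim
    rw [Finset.coe_image]
    exact ⟨k, by simp, hk.symm⟩
  refine (Set.encard_le_encard hsub).trans ?_
  rw [Set.encard_coe_eq_coe_finsetCard]
  refine le_trans (Nat.cast_le.mpr Finset.card_image_le) ?_
  rw [Finset.card_univ, Fintype.card_prod, Fintype.card_sum, Fintype.card_fin, Fintype.card_bool]

theorem sections_close {k : ℕ} (i0 i1 : Fin k) (θ : EuclideanSpace ℝ (Fin (2 ^ k)))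
    (hθ : ‖θ‖ = 1) :
    |relSection (KK (scl k) (WP k)) θ - relSection (KK (scl k) (WQ i0 i1)) θ| ≤
      2 * 2 ^ k * (Real.exp (((2 ^ k : ℕ) : ℝ) + 8 * √((2 ^ k : ℕ) : ℝ)) / 6 ^ (2 ^ k)) := by
  have hs1 := scl_ge k
  have hs : 0 < scl k := by linarith
  set s := scl k with hsdef
  have h1 := sec_diff hs (WP k) (WQ i0 i1) WP_cases θ hθ
  have h2 := sec_diff hs (WQ i0 i1) (WP k) (WQ_cases i0 i1) θ hθ
  set a := (sec (KK s (WP k)) θ).toReal with ha
  set b := (sec (KK s (WQ i0 i1)) θ).toReal with hb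
  set E := err (Fin k → ZMod 2) s (2 ^ k) with hE
  set v := (volume (KK s (WP k))).toReal with hv
  have hvq : (volume (KK s (WQ i0 i1))).toReal = v := by rw [hv, volQ]
  have hvpos : 0 < v := vol_pos hs (WP k) (WP_abs k)
  have hvl : (3 / 2 * s) ^ (2 ^ k) ≤ v := by
    have h3 := ENNReal.toReal_mono (KK_bdd hs.le (WP k)).measure_lt_top.ne
      (vol_lower hs (WP k) (WP_abs k))
    rwa [ENNReal.toReal_ofReal (by positivity)] at h3
  have h3 : relSection (KK s (WP k)) θ - relSection (KK s (WQ i0 i1)) θ = (a - b) / v := by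
    have e1 : vol (centralSection (KK s (WP k)) θ) = a := rfl
    have e2 : vol (centralSection (KK s (WQ i0 i1)) θ) = b := rfl
    have e3 : vol (KK s (WQ i0 i1)) = v := hvq
    have e4 : vol (KK s (WP k)) = v := rfl
    unfold relSection
    rw [e1, e2, e3, e4]
    ring
  rw [h3, abs_div, abs_of_pos hvpos]
  have hEn : 0 ≤ E := err_nonneg hs.le
  have h4 : |a - b| ≤ E := by
    rw [abs_le]
    constructor <;> nlinarith
  calc |a - b| / v ≤ E / (3 / 2 * s) ^ (2 ^ k) := by gcongr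
    _ = 2 * 2 ^ k * (Real.exp (((2 ^ k : ℕ) : ℝ) + 8 * √((2 ^ k : ℕ) : ℝ)) / 6 ^ (2 ^ k)) := by
        rw [hE]
        unfold err
        have hc : Fintype.card (Fin k → ZMod 2) = 2 ^ k := by simp [ZMod.card]
        rw [hc, mul_pow]
        have h6 : (6:ℝ) ^ (2 ^ k) = 4 ^ (2 ^ k) * (3 / 2) ^ (2 ^ k) := by
          rw [← mul_pow]; norm_num
        rw [h6]
        push_cast
        have : s ^ 2 ^ k ≠ 0 := by positivity
        field_simp

theorem hausdorff_far {k : ℕ} (i0 i1 : Fin k) (hne : i0 ≠ i1) (hk : 2 ≤ k) :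
    1 / 10 < Metric.hausdorffDist (KK (scl k) (WP k)) (KK (scl k) (WQ i0 i1)) := by
  have hs1 := scl_ge k
  have hs : 0 < scl k := by linarith
  set s := scl k with hsdef
  set B : EuclideanSpace ℝ (Fin (2 ^ k)) := WithLp.toLp 2 (bt i0 i1) with hB
  have hBn : ‖B‖ ^ 2 = 2 ^ k := by
    rw [EuclideanSpace.norm_sq_eq]
    have : ∀ j, ‖B j‖ ^ 2 = 1 := by
      intro j
      rw [Real.norm_eq_abs, hB]
      simp only
      rw [abs_of_cases (bt_cases i0 i1 j)]
      norm_num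
    rw [Finset.sum_congr rfl fun j _ => this j]
    simp
  have hxP : s • B ∈ KK s (WP k) := by
    constructor
    · intro j
      rw [PiLp.smul_apply, smul_eq_mul, abs_mul, abs_of_pos hs]
      have : |B j| = 1 := abs_of_cases (bt_cases i0 i1 j)
      rw [this, mul_one]
    · intro a
      have h1 : ∑ j, WP k a j * (s • B) j = s * ∑ j, chi a j * bt i0 i1 j := by
        rw [Finset.mul_sum]
        refine Finset.sum_congr rfl fun j _ => ?_
        rw [PiLp.smul_apply, smul_eq_mul]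
        unfold WP
        simp only [hB]
        ring
      rw [h1, abs_mul, abs_of_pos hs]
      have h2 := bt_corr i0 i1 hne a
      have h3 : (0:ℝ) < 2 ^ k := by positivity
      push_cast
      gcongr
      linarith
  have hfar : ∀ q ∈ KK s (WQ i0 i1), 1 / 4 ≤ dist (s • B) q := by
    intro q hq
    have h1 := hq.2 0
    have h2 : ∑ j, WQ i0 i1 0 j * q j = ⟪B, q⟫ := by
      rw [PiLp.inner_apply]
      refine Finset.sum_congr rfl fun j _ => ?_
      unfold WQ
      rw [chi_zero]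
      simp [hB, mul_comm]
    rw [h2] at h1
    have h3 := (abs_le.mp h1).2
    have h4 : ⟪B, s • B - q⟫ ≤ ‖B‖ * ‖s • B - q‖ := real_inner_le_norm _ _
    rw [inner_sub_right, inner_smul_right, real_inner_self_eq_norm_sq, hBn] at h4
    push_cast at h3
    have h5 : s * (1 / 4 * 2 ^ k) ≤ ‖B‖ * ‖s • B - q‖ := by linarith
    have h6 : (4:ℝ) ≤ 2 ^ k := by
      calc (4:ℝ) = 2 ^ 2 := by norm_num
        _ ≤ 2 ^ k := pow_le_pow_right₀ (by norm_num) hk
    have hB0 : 0 < ‖B‖ := by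
      have : 0 < ‖B‖ ^ 2 := by rw [hBn]; positivity
      by_contra h0
      have h00 : ‖B‖ = 0 := le_antisymm (not_lt.mp h0) (norm_nonneg _)
      rw [h00] at this
      norm_num at this
    have hB2 : 2 ≤ ‖B‖ := by nlinarith
    rw [dist_eq_norm]
    have h7 : 1 / 4 * ‖B‖ ^ 2 ≤ ‖B‖ * ‖s • B - q‖ := by
      rw [hBn]
      have : (0:ℝ) < 2 ^ k := by positivity
      nlinarith
    have h8 : ‖B‖ * (1 / 4 * ‖B‖) ≤ ‖B‖ * ‖s • B - q‖ := by linarith [h7, sq ‖B‖]
    have h9 := le_of_mul_le_mul_left h8 hB0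
    linarith
  have h0P : (0 : EuclideanSpace ℝ (Fin (2 ^ k))) ∈ KK s (WQ i0 i1) :=
    ball_sub hs _ (WQ_abs i0 i1) (by simp; linarith)
  have hnt : Metric.hausdorffEDist (KK s (WP k)) (KK s (WQ i0 i1)) ≠ ⊤ :=
    Metric.hausdorffEDist_ne_top_of_nonempty_of_bounded ⟨_, hxP⟩ ⟨_, h0P⟩
      (KK_bdd hs.le _) (KK_bdd hs.le _)
  have h1 := Metric.infDist_le_hausdorffDist_of_mem hxP hnt
  have h2 : 1 / 4 ≤ Metric.infDist (s • B) (KK s (WQ i0 i1)) :=
    (Metric.le_infDist ⟨_, h0P⟩).mpr hfar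
  linarith

theorem asymp (t' : ℕ) : ∃ k : ℕ, 2 ≤ k ∧
    2 * 2 ^ k * (Real.exp (((2 ^ k : ℕ) : ℝ) + 8 * √((2 ^ k : ℕ) : ℝ)) / 6 ^ (2 ^ k)) ≤
      1 / ((2 ^ k : ℕ) : ℝ) ^ t' := by
  set r : ℝ := Real.exp (9 / 8) / 6 with hr
  have hr0 : 0 < r := by positivity
  have hr1 : r < 1 := by
    rw [hr, div_lt_one (by norm_num)]
    have h1 : Real.exp (9 / 8) ^ 8 < 6 ^ 8 := by
      rw [← Real.exp_nat_mul]
      have h2 : Real.exp (((8:ℕ):ℝ) * (9 / 8)) = Real.exp 1 ^ 9 := by
        rw [← Real.exp_nat_mul]; norm_num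
      rw [h2]
      have h3 := Real.exp_one_lt_d9
      calc Real.exp 1 ^ 9 < 3 ^ 9 := by
            apply pow_lt_pow_left₀ _ (Real.exp_pos 1).le (by norm_num)
            linarith
        _ < 6 ^ 8 := by norm_num
    exact lt_of_pow_lt_pow_left₀ 8 (by norm_num) h1
  have ht := tendsto_pow_const_mul_const_pow_of_abs_lt_one (t' + 1) (r := r)
    (by rw [abs_of_pos hr0]; exact hr1)
  have ht2 : Filter.Tendsto (fun k : ℕ => 2 ^ k) Filter.atTop Filter.atTop :=
    tendsto_pow_atTop_atTop_of_one_lt (by norm_num : 1 < 2)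
  have ht3 := ht.comp ht2
  have h1 := (ht3.eventually (gt_mem_nhds (show (0:ℝ) < 1 / 2 by norm_num))).and
    (Filter.eventually_ge_atTop 12)
  obtain ⟨k, hk1, hk2⟩ := h1.exists
  refine ⟨k, by omega, ?_⟩
  simp only [Function.comp_apply] at hk1
  set D : ℝ := ((2 ^ k : ℕ) : ℝ) with hD
  have hDpos : 0 < D := by rw [hD]; positivity
  have hD1 : (4096:ℝ) ≤ D := by
    rw [hD]
    have : 2 ^ 12 ≤ 2 ^ k := Nat.pow_le_pow_right (by norm_num) hk2
    have h2 : (4096:ℕ) ≤ 2 ^ k := by simpa using this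
    exact_mod_cast h2
  have h64 : 64 * √D ≤ D := by
    have h3 : (64:ℝ) ≤ √D := by
      rw [show (64:ℝ) = √4096 by
        rw [show (4096:ℝ) = 64 ^ 2 by norm_num, Real.sqrt_sq (by norm_num)]]
      exact Real.sqrt_le_sqrt hD1
    calc 64 * √D ≤ √D * √D := by gcongr
      _ = D := Real.mul_self_sqrt hDpos.le
  have h5 : Real.exp (D + 8 * √D) / 6 ^ (2 ^ k) ≤ r ^ (2 ^ k) := by
    rw [hr, div_pow]
    gcongr
    rw [← Real.exp_nat_mul]
    apply Real.exp_le_exp.mpr
    rw [← hD]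
    linarith
  rw [le_div_iff₀ (by positivity)]
  have hD' : (2:ℝ) ^ k = D := by rw [hD]; push_cast; rfl
  calc 2 * 2 ^ k * (Real.exp (D + 8 * √D) / 6 ^ (2 ^ k)) * D ^ t'
      ≤ 2 * 2 ^ k * r ^ (2 ^ k) * D ^ t' := by gcongr
    _ = 2 * (D ^ (t' + 1) * r ^ (2 ^ k)) := by rw [hD']; ring
    _ ≤ 1 := by linarith

/-- There is a positive integer `t` such that for every positive integer `t'` there are a
dimension `d ≥ 2` and isotropic centrally symmetric polytopes `P, Q` in `ℝ^d` with at most `d^t`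
facets each, with `|A_P(θ) - A_Q(θ)| ≤ d^{-t'}` for every unit vector `θ`, and with Hausdorff
distance greater than `1/10`. -/
theorem result : ∃ t : ℕ, 0 < t ∧ ∀ t' : ℕ, 0 < t' → ∃ d : ℕ, 2 ≤ d ∧
    ∃ P Q : Set (E d),
      (IsPolytope P ∧ P = -P ∧ IsIsotropic P ∧ AtMostFacets P (d ^ t)) ∧
      (IsPolytope Q ∧ Q = -Q ∧ IsIsotropic Q ∧ AtMostFacets Q (d ^ t)) ∧
      (∀ θ : E d, ‖θ‖ = 1 → |relSection P θ - relSection Q θ| ≤ 1 / (d : ℝ) ^ t') ∧
      1 / 10 < Metric.hausdorffDist P Q := by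
  refine ⟨2, by norm_num, fun t' _ => ?_⟩
  obtain ⟨k, hk, hkt⟩ := asymp t'
  have hs : 0 < scl k := lt_of_lt_of_le one_pos (scl_ge k)
  let i0 : Fin k := ⟨0, by omega⟩
  let i1 : Fin k := ⟨1, by omega⟩
  have hne : i0 ≠ i1 := by
    intro h; have := congrArg Fin.val h; simp [i0, i1] at this
  have hcard : ((2 ^ k + Fintype.card (Fin k → ZMod 2)) * 2 : ℕ) ≤ (2 ^ k) ^ 2 := by
    have hc : Fintype.card (Fin k → ZMod 2) = 2 ^ k := by simp [ZMod.card]
    rw [hc]
    have h4 : 2 ^ 2 ≤ 2 ^ k := Nat.pow_le_pow_right (by norm_num) hk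
    nlinarith
  have h2k : 2 ≤ 2 ^ k := by
    calc 2 = 2 ^ 1 := by norm_num
      _ ≤ 2 ^ k := Nat.pow_le_pow_right (by norm_num) (by omega)
  refine ⟨2 ^ k, h2k, KK (scl k) (WP k), KK (scl k) (WQ i0 i1),
    ⟨polytope_KK hs _ (WP_abs k), KK_symm _ _, isoP k, ?_⟩,
    ⟨polytope_KK hs _ (WQ_abs i0 i1), KK_symm _ _, isoQ i0 i1, ?_⟩, ?_, hausdorff_far i0 i1 hne hk⟩
  · exact (facets_KK (by positivity) _ _ (WP_abs k)).trans (Nat.cast_le.mpr hcard)
  · exact (facets_KK (by positivity) _ _ (WQ_abs i0 i1)).trans (Nat.cast_le.mpr hcard)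
  · intro θ hθ
    exact (sections_close i0 i1 θ hθ).trans hkt

end Pool.Agent.Results.MP_9f0ab0_gt.CutCubes
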